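import Mathlib

open Set Filter Topology Real
open scoped ContDiff

namespace Pool.Agent.Results.MP_b9d480_lc.Emb

def A (s : ℕ → ℝ) : Set ℝ := {u | ∃ k, s (2 * k + 1) ≤ u ∧ u < s (2 * k)}

section gen
variable {s t : ℕ → ℝ} (hs : StrictAnti s) (h0 : Tendsto s atTop (𝓝 0))
include hs

theorem col {j : ℕ} {u : ℝ} (h1 : s (j + 1) ≤ u) (h2 : u < s j) : u ∈ A s ↔ Even j := by
  constructor
  · rintro ⟨k, a, b⟩
    have := hs.lt_iff_gt.1 (h1.trans_lt b)
    have := hs.lt_iff_gt.1 (a.trans_lt h2)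
    exact ⟨k, by omega⟩
  · rintro ⟨k, rfl⟩
    exact ⟨k, by rwa [two_mul], by rwa [two_mul]⟩

theorem top {u : ℝ} (h : s 0 ≤ u) : u ∉ A s := fun ⟨k, _, b⟩ =>
  absurd (hs.lt_iff_gt.1 (h.trans_lt b)) (by omega)

theorem col' (j : ℕ) : s j ∈ A s ↔ ¬ Even j := by
  rcases j with _ | j
  · simpa using top hs le_rfl
  · rw [col hs le_rfl (hs j.lt_succ_self), Nat.even_add_one, not_not]

include h0
theorem pos (k : ℕ) : 0 < s k :=
  (hs.antitone.le_of_tendsto h0 (k + 1)).trans_lt (hs k.lt_succ_self)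

theorem bot {u : ℝ} (h : u ≤ 0) : u ∉ A s := fun ⟨k, a, _⟩ => by linarith [pos hs h0 (2 * k + 1)]

omit hs in
theorem loc {u : ℝ} (a : 0 < u) (b : u < s 0) : ∃ j, s (j + 1) ≤ u ∧ u < s j := by
  classical
  have e : ∃ j, s j ≤ u := (h0.eventually (ge_mem_nhds a)).exists
  have e0 : Nat.find e ≠ 0 := fun h => by have := Nat.find_spec e; rw [h] at this; linarith
  obtain ⟨j, hj⟩ := Nat.exists_eq_succ_of_ne_zero e0
  exact ⟨j, by simpa [hj] using Nat.find_spec e, not_le.1 (Nat.find_min e (by omega))⟩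

theorem d2 : ∃ U F : Set ℝ, IsOpen U ∧ IsClosed F ∧ A s = U ∩ F := by
  have h2 : Tendsto (fun k => s (2 * k)) atTop (𝓝 0) :=
    h0.comp (tendsto_id.const_mul_atTop' two_pos)
  refine ⟨(insert 0 (range fun k => s (2 * k)))ᶜ, closure (A s),
    h2.isCompact_insert_range.isClosed.isOpen_compl, isClosed_closure, ?_⟩
  refine Subset.antisymm (fun u hu => ⟨?_, subset_closure hu⟩) fun u ⟨a, b⟩ => ?_
  · rintro (rfl | ⟨k, rfl⟩)
    · exact bot hs h0 le_rfl hu
    · exact (col' hs _).1 hu (even_two_mul k)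
  · simp only [mem_compl_iff, mem_insert_iff, mem_range, not_or, not_exists] at a
    have n : ∀ V : Set ℝ, IsOpen V → u ∈ V → (∀ v ∈ V, v ∉ A s) → False := fun V o m h => by
      obtain ⟨v, c, d⟩ := mem_closure_iff.1 b V o m
      exact h v c d
    rcases lt_trichotomy u 0 with h | h | h
    · exact (n _ isOpen_Iio h fun v c => bot hs h0 (le_of_lt c)).elim
    · exact (a.1 h).elim
    rcases lt_trichotomy u (s 0) with g | g | g
    · obtain ⟨j, c, d⟩ := loc h0 h g
      rw [col hs c d]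
      by_contra e
      obtain ⟨k, hk⟩ := Nat.even_add_one.2 e
      refine n _ isOpen_Ioo ⟨c.lt_of_ne fun z => a.2 k (by rw [← z, hk, two_mul]), d⟩
        fun v z y => e ((col hs z.1.le z.2).1 y)
    · exact (a.2 0 g.symm).elim
    · exact (n _ isOpen_Ioi g fun v c => top hs (le_of_lt c)).elim

theorem step {P : Set ℝ} (hP : IsPreconnected P) {v w : ℝ} (hv : v ∈ P) (hw : w ∈ closure P)
    (c : ∀ u ∈ P, u ∈ A s ↔ v ∈ A s) (d : ¬ (w ∈ A s ↔ v ∈ A s)) :
    ∃ j, s (j + 1) ≤ v ∧ v < s j ∧ w = s j := by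
  have o := hP.ordConnected
  rcases le_or_gt v 0 with h | h
  · have : P ⊆ Iic 0 := fun u hu => not_lt.1 fun a => by
      obtain ⟨k, hk⟩ := ((h0.comp (tendsto_add_atTop_nat 1 |>.comp
        (tendsto_id.const_mul_atTop' two_pos))).eventually (ge_mem_nhds a)).exists
      exact bot hs h0 h ((c _ (o.out hv hu ⟨h.trans (pos hs h0 _).le, hk⟩)).1
        ⟨k, le_rfl, hs (by simp)⟩)
    have := closure_minimal this isClosed_Iic hw
    exact (d (iff_of_false (bot hs h0 this) (bot hs h0 h))).elim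
  rcases le_or_gt (s 0) v with g | g
  · have : P ⊆ Ici (s 0) := fun u hu => not_lt.1 fun a => by
      have b : max u (s 1) < s 0 := max_lt a (hs one_pos)
      exact top hs g ((c _ (o.out hu hv ⟨le_max_left _ _, b.le.trans g⟩)).1
        ⟨0, le_max_right _ _, b⟩)
    have := closure_minimal this isClosed_Ici hw
    exact (d (iff_of_false (top hs this) (top hs g))).elim
  obtain ⟨j, a, b⟩ := loc h0 h g
  have e := col hs a b
  have : P ⊆ Icc (s (j + 1)) (s j) := fun u hu => ⟨not_lt.1 fun z => by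
      have y : max u (s (j + 2)) < s (j + 1) := max_lt z (hs (by omega))
      have := c _ (o.out hu hv ⟨le_max_left _ _, y.le.trans a⟩)
      rw [col hs (le_max_right _ _) y, e, Nat.even_add_one] at this
      tauto, not_lt.1 fun z => by
      have := c _ (o.out hv hu ⟨b.le, z.le⟩)
      rw [col' hs, e] at this
      tauto⟩
  have := closure_minimal this isClosed_Icc hw
  exact ⟨j, a, b, this.2.eq_or_lt.resolve_right fun z => d (by rw [col hs this.1 z, e])⟩

theorem shift (ht : StrictAnti t) {f : ℝ → ℝ} (hf : Continuous f) (e : A t = f ⁻¹' A s) :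
    ∃ c, ∀ k, f (t k) = s (k + c) := by
  have m : ∀ u, f u ∈ A s ↔ u ∈ A t := fun u => by rw [e]; rfl
  have : ∀ k, ∃ j, s (j + 1) ≤ f (t (k + 1)) ∧ f (t (k + 1)) < s j ∧ f (t k) = s j := fun k => by
    have l := ht k.lt_succ_self
    refine step hs h0 (isPreconnected_Ico.image f hf.continuousOn) ⟨_, ⟨le_rfl, l⟩, rfl⟩
      (image_closure_subset_closure_image hf ⟨_, by rw [closure_Ico l.ne]; exact ⟨l.le, le_rfl⟩,
        rfl⟩) ?_ ?_
    · rintro _ ⟨u, hu, rfl⟩
      rw [m, m, col ht hu.1 hu.2, col ht le_rfl l]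
    · rw [m, m, col' ht, col ht le_rfl l]; tauto
  choose j a b c using this
  refine ⟨j 0, fun k => ?_⟩
  have : j k = k + j 0 := by
    induction k with
    | zero => simp
    | succ k ih =>
      have a1 := a k
      have b1 := b k
      rw [c] at a1 b1
      have := hs.le_iff_ge.1 a1
      have := hs.lt_iff_gt.1 b1
      omega
  rw [c, this]

end gen

theorem cs {g : ℝ → ℝ} {a b : ℝ} (ha : ∀ u ≤ a, g u = g a) (hb : ∀ u, b ≤ u → g u = g b) :
    HasCompactSupport (deriv g) := by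
  refine HasCompactSupport.intro (isCompact_Icc (a := a) (b := b)) fun u hu => ?_
  rw [mem_Icc, not_and_or, not_le, not_le] at hu
  rcases hu with h | h
  · rw [EventuallyEq.deriv_eq (f := fun _ => g a), deriv_const]
    filter_upwards [gt_mem_nhds h] with v hv using ha v hv.le
  · rw [EventuallyEq.deriv_eq (f := fun _ => g b), deriv_const]
    filter_upwards [lt_mem_nhds h] with v hv using hb v hv.le

theorem sb (m : ℕ) : ∃ C, 0 ≤ C ∧ ∀ u, |iteratedDeriv m smoothTransition u| ≤ C := by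
  rcases m with _ | m
  · exact ⟨1, zero_le_one, fun u => by
      simpa [abs_of_nonneg (smoothTransition.nonneg u)] using smoothTransition.le_one u⟩
  · have c : HasCompactSupport (deriv smoothTransition) := cs (a := 0) (b := 1)
      (fun u h => by simp [smoothTransition.zero_of_nonpos h])
      fun u h => by simp [smoothTransition.one_of_one_le h]
    have d : ContDiff ℝ ∞ (deriv smoothTransition) :=
      (contDiff_infty_iff_deriv.1 smoothTransition.contDiff).2
    obtain ⟨C, hC⟩ := (d.continuous_iteratedFDeriv (m := m) (mod_cast le_top)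
      ).bounded_above_of_compact_support (c.iteratedFDeriv m)
    refine ⟨C, (norm_nonneg _).trans (hC 0), fun u => ?_⟩
    rw [iteratedDeriv_succ', ← Real.norm_eq_abs, ← norm_iteratedFDeriv_eq_norm_iteratedDeriv]
    exact hC u

theorem red {s t : ℕ → ℝ} (hs : StrictAnti s) (h0 : Tendsto s atTop (𝓝 0)) (ht : StrictAnti t)
    (g0 : Tendsto t atTop (𝓝 0)) (h1 : Summable t) (h2 : ∀ k, 2 * t (k + 1) ≤ t k)
    (h3 : ∀ m, ∀ᶠ k in atTop, s (k + 2) ≤ t k ^ m * t k) :
    ∃ f : ℝ → ℝ, ContDiff ℝ ∞ f ∧ (∃ K, LipschitzWith K f) ∧ A t = f ⁻¹' A s := by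
  let w : ℕ → ℝ := fun k => t k - t (k + 1)
  have w0 : ∀ k, 0 < w k := fun k => sub_pos.2 (ht k.lt_succ_self)
  let D : ℕ → ℝ := fun k => s (k + 2) - s (k + 3)
  have D0 : ∀ k, 0 < D k := fun k => sub_pos.2 (hs (by omega))
  let σ : ℕ → ℝ → ℝ := fun k u => smoothTransition ((w k)⁻¹ * (u - t (k + 1)))
  have s0 : ∀ k u, u ≤ t (k + 1) → σ k u = 0 := fun k u h => smoothTransition.zero_of_nonpos
    (mul_nonpos_of_nonneg_of_nonpos (inv_pos.2 (w0 k)).le (sub_nonpos.2 h))
  have s1 : ∀ k u, t k ≤ u → σ k u = 1 := fun k u h => smoothTransition.one_of_one_le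
    (by rw [le_inv_mul_iff₀ (w0 k)]; simp only [w]; linarith)
  have s2 : ∀ k u, u < t k → σ k u < 1 := fun k u h => smoothTransition.lt_one_of_lt_one
    (by rw [inv_mul_lt_iff₀ (w0 k)]; simp only [w]; linarith)
  have tl : ∀ m, HasSum (fun j => D (j + m)) (s (m + 2)) := fun m => by
    rw [hasSum_iff_tendsto_nat_of_nonneg fun j => (D0 _).le]
    have : ∀ n, ∑ j ∈ Finset.range n, D (j + m) = s (m + 2) - s (n + (m + 2)) := fun n => by
      induction n with
      | zero => simp
      | succ n ih =>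
        rw [Finset.sum_range_succ, ih, show n + 1 + (m + 2) = n + m + 3 by ring, ← add_assoc]
        simp only [D]; ring
    simpa [this] using (h0.comp (tendsto_add_atTop_nat (m + 2))).const_sub (s (m + 2))
  let f : ℝ → ℝ := fun u => ∑' k, D k * σ k u
  have f0 : ∀ u ≤ 0, f u = 0 := fun u h => by
    simp [f, fun k => s0 k u (h.trans (pos ht g0 (k + 1)).le)]
  have f1 : ∀ u, t 0 ≤ u → f u = s 2 := fun u h => by
    simpa [f, fun k => s1 k u ((ht.antitone k.zero_le).trans h)] using (tl 0).tsum_eq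
  have f2 : ∀ k u, t (k + 1) ≤ u → u < t k → f u = D k * σ k u + s (k + 3) := fun k u a b => by
    have : HasSum (fun j => D (j + (k + 1)) * σ (j + (k + 1)) u) (s (k + 3)) := by
      simpa [fun j => s1 (j + (k + 1)) u ((ht.antitone (by omega)).trans a)] using tl (k + 1)
    rw [hasSum_nat_add_iff (f := fun j => D j * σ j u), Finset.sum_range_succ,
      Finset.sum_eq_zero fun j hj => by
        rw [s0 j u (b.le.trans (ht.antitone (Finset.mem_range.1 hj))), mul_zero]] at this
    simp only [f, this.tsum_eq]; ring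
  choose C C0 hC using sb
  have sm : ContDiff ℝ ∞ f := by
    refine contDiff_tsum_of_eventually (v := fun m k => C m * 2 ^ m * t k)
      (fun k => contDiff_const.mul (smoothTransition.contDiff.comp (by fun_prop)))
      (fun m _ => h1.mul_left _) fun m _ => ?_
    rw [Nat.cofinite_eq_atTop]
    filter_upwards [h3 m] with k hk u
    rw [norm_iteratedFDeriv_eq_norm_iteratedDeriv, iteratedDeriv_const_mul_field,
      iteratedDeriv_comp_sub_const (f := fun v => smoothTransition ((w k)⁻¹ * v)),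
      iteratedDeriv_comp_const_mul smoothTransition.contDiff, Real.norm_eq_abs, abs_mul, abs_mul,
      abs_of_pos (D0 k), abs_of_pos (by have := w0 k; positivity)]
    have tk := pos ht g0 k
    have a : (w k)⁻¹ ≤ 2 / t k := by
      rw [inv_eq_one_div, div_le_div_iff₀ (w0 k) tk]; simp only [w]; linarith [h2 k]
    have b : D k ≤ t k ^ m * t k := by
      simp only [D]; linarith [pos hs h0 (k + 3)]
    have := w0 k
    calc _ ≤ t k ^ m * t k * ((2 / t k) ^ m * C m) := by gcongr; exact hC _ _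
      _ = _ := by rw [div_pow]; field_simp
  refine ⟨f, sm, ?_, ?_⟩
  · obtain ⟨K, hK⟩ := (sm.continuous_deriv (by simp)).bounded_above_of_compact_support
      (cs (a := 0) (b := t 0) (fun u h => by rw [f0 u h, f0 0 le_rfl])
        fun u h => by rw [f1 u h, f1 _ le_rfl])
    exact ⟨⟨K, (norm_nonneg _).trans (hK 0)⟩,
      lipschitzWith_of_nnnorm_deriv_le (sm.differentiable (by simp)) hK⟩
  · ext u
    rw [mem_preimage]
    rcases le_or_gt u 0 with h | h
    · rw [f0 u h]; exact iff_of_false (bot ht g0 h) (bot hs h0 le_rfl)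
    rcases le_or_gt (t 0) u with g | g
    · rw [f1 u g, col' hs]; simpa using top ht g
    obtain ⟨k, a, b⟩ := loc g0 h g
    have p : 0 ≤ σ k u := smoothTransition.nonneg _
    rw [col ht a b, f2 k u a b, col hs (j := k + 2) (by nlinarith [D0 k])
      (by have := mul_lt_mul_of_pos_left (s2 k u b) (D0 k); simp only [D] at this ⊢; linarith)]
    simp [Nat.even_add]

noncomputable def lam (a : ℕ) : ℝ := (1 / 2) ^ (a + 1).factorial

theorem lam_pos (a : ℕ) : 0 < lam a := by unfold lam; positivity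

theorem lam_le (a : ℕ) : lam a ≤ (1 / 2) ^ (a + 1) :=
  pow_le_pow_of_le_one (by norm_num) (by norm_num) (Nat.self_le_factorial _)

theorem lam_succ {a m : ℕ} (h : m ≤ a + 1) : lam (a + 1) ≤ lam a ^ m * lam a := by
  rw [← pow_succ, lam, lam, ← pow_mul, Nat.factorial_succ (a + 1), mul_comm]
  exact pow_le_pow_of_le_one (by norm_num) (by norm_num) (Nat.mul_le_mul_left _ (by omega))

theorem lam_half (a : ℕ) : 2 * lam (a + 1) ≤ lam a := by
  have h1 := lam_succ (a := a) (m := 1) (by omega)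
  have h2 : lam a ≤ 1 / 2 := (lam_le a).trans (pow_le_of_le_one (by norm_num) (by norm_num) (by simp))
  nlinarith [lam_pos a]

theorem lam_anti : StrictAnti lam := strictAnti_nat_of_succ_lt fun a => by
  linarith [lam_half a, lam_pos (a + 1)]

open Classical in
noncomputable def mu (x : Set ℕ) (k : ℕ) : ℕ := if k.sqrt ∈ x then (k.sqrt + 1) ^ 2 else k

theorem mu_mono (x : Set ℕ) : Monotone (mu x) := fun k l h => by
  have a := Nat.sqrt_le_sqrt h
  have b := Nat.lt_succ_sqrt' l
  unfold mu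
  split_ifs with h1 h2 h2
  · gcongr
  · have : k.sqrt + 1 ≤ l.sqrt := a.lt_of_ne fun e => h2 (e ▸ h1)
    exact Nat.le_sqrt'.1 this
  · exact h.trans b.le
  · exact h

noncomputable def T (x : Set ℕ) (k : ℕ) : ℝ := lam (k + mu x k)

theorem ph (x : Set ℕ) : StrictMono fun k => k + mu x k := fun _ _ h =>
  add_lt_add_of_lt_of_le h (mu_mono x h.le)

theorem T_anti (x : Set ℕ) : StrictAnti (T x) := lam_anti.comp_strictMono (ph x)

theorem T_sum (x : Set ℕ) : Summable (T x) :=
  Summable.of_nonneg_of_le (fun _ => (lam_pos _).le) (fun k => (lam_le _).trans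
    (pow_le_pow_of_le_one (by norm_num) (by norm_num) (by omega))) summable_geometric_two

theorem fwd {x y : Set ℕ} (h : (x \ y).Finite) :
    ∃ f : ℝ → ℝ, ContDiff ℝ ∞ f ∧ (∃ K, LipschitzWith K f) ∧ A (T x) = f ⁻¹' A (T y) := by
  refine red (T_anti y) (T_sum y).tendsto_atTop_zero (T_anti x) (T_sum x).tendsto_atTop_zero
    (T_sum x) (fun k => ?_) fun m => ?_
  · have := lam_anti.antitone (Nat.succ_le_of_lt (ph x k.lt_succ_self))
    exact le_trans (mul_le_mul_of_nonneg_left this zero_le_two) (lam_half _)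
  · obtain ⟨N, hN⟩ := h.bddAbove
    filter_upwards [eventually_ge_atTop ((N + 1) ^ 2), eventually_ge_atTop m] with k a b
    refine le_trans (lam_anti.antitone ?_) (lam_succ (by omega))
    have c := mu_mono y (k.le_add_right 2)
    have d : mu x k ≤ mu y k := by
      have e := Nat.le_sqrt'.2 a
      have g := Nat.lt_succ_sqrt' k
      unfold mu
      split_ifs with h1 h2 h2
      · rfl
      · have := hN ⟨h1, h2⟩; omega
      · exact g.le
      · rfl
    omega

theorem bwd {x y : Set ℕ} {f : ℝ → ℝ} (hf : Continuous f) {L : ℝ}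
    (hL : ∀ᶠ u in 𝓝 (0 : ℝ), ‖f u - f 0‖ ≤ L * ‖u - 0‖) (e : A (T x) = f ⁻¹' A (T y)) :
    (x \ y).Finite := by
  have tx := (T_sum x).tendsto_atTop_zero
  have ty := (T_sum y).tendsto_atTop_zero
  obtain ⟨c, hc⟩ := shift (T_anti y) ty (T_anti x) hf e
  have f0 : f 0 = 0 := tendsto_nhds_unique ((hf.tendsto 0).comp tx)
    ((ty.comp (tendsto_add_atTop_nat c)).congr fun k => (hc k).symm)
  have l0 : Tendsto (fun a : ℕ => |L| * (1 / 2 : ℝ) ^ a) atTop (𝓝 0) := by
    simpa using (tendsto_pow_atTop_nhds_zero_of_lt_one (r := (1 / 2 : ℝ)) (by norm_num)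
      (by norm_num)).const_mul |L|
  obtain ⟨N, hN⟩ := eventually_atTop.1 ((tx.eventually hL).and (l0.eventually (gt_mem_nhds one_pos)))
  refine (finite_lt_nat (N + c + 1)).subset fun n ⟨a, b⟩ =>
    (not_le (a := N + c + 1)).1 fun g => ?_
  have n2 : N ≤ n ^ 2 := by nlinarith
  obtain ⟨p, q⟩ := hN (n ^ 2) n2
  have s1 : (n ^ 2 + c).sqrt = n := Nat.sqrt_add_eq' n (by omega)
  rw [hc, f0, sub_zero, sub_zero, T, T, mu, mu, s1, Nat.sqrt_eq', if_pos a, if_neg b,
    Real.norm_of_nonneg (lam_pos _).le, Real.norm_of_nonneg (lam_pos _).le] at p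
  set r := n ^ 2 + c + (n ^ 2 + c)
  have r1 : lam (n ^ 2 + (n + 1) ^ 2) ≤ lam (r + 1) := lam_anti.antitone (by simp only [r]; nlinarith)
  have r2 := lam_succ (a := r) (m := 1) (by omega)
  have r3 : lam r ≤ (1 / 2) ^ (n ^ 2) := (lam_le _).trans
    (pow_le_pow_of_le_one (by norm_num) (by norm_num) (by omega))
  have r4 := lam_pos r
  have : lam r < lam r := calc
    lam r ≤ |L| * lam (n ^ 2 + (n + 1) ^ 2) :=
      p.trans (mul_le_mul_of_nonneg_right (le_abs_self L) (lam_pos _).le)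
    _ ≤ |L| * ((1 / 2) ^ (n ^ 2) * lam r) := by
      gcongr; refine r1.trans (r2.trans ?_); rw [pow_one]; gcongr
    _ < 1 * lam r := by rw [← mul_assoc]; gcongr
    _ = _ := one_mul _
  exact lt_irrefl _ this

theorem result : ∃ A : Set ℕ → Set ℝ,
    (∀ x, ∃ U F : Set ℝ, IsOpen U ∧ IsClosed F ∧ A x = U ∩ F) ∧
    (∀ x y, (x \ y).Finite ↔ ∃ f : ℝ → ℝ, (∃ K, LipschitzWith K f) ∧ A x = f ⁻¹' A y) ∧
    (∀ x y, (x \ y).Finite ↔ ∃ f : ℝ → ℝ, ContDiff ℝ ∞ f ∧ A x = f ⁻¹' A y) := by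
  refine ⟨fun x => A (T x), fun x => d2 (T_anti x) (T_sum x).tendsto_atTop_zero,
    fun x y => ⟨fun h => ?_, fun ⟨f, ⟨K, a⟩, b⟩ => ?_⟩, fun x y => ⟨fun h => ?_, fun ⟨f, a, b⟩ => ?_⟩⟩
  · obtain ⟨f, -, a, b⟩ := fwd h
    exact ⟨f, a, b⟩
  · exact bwd a.continuous (L := K) (.of_forall fun u => a.norm_sub_le u 0) b
  · obtain ⟨f, a, -, b⟩ := fwd h
    exact ⟨f, a, b⟩
  · obtain ⟨L, hL⟩ := (a.differentiable (by simp) 0).isBigO_sub.bound
    exact bwd a.continuous hL b

end Pool.Agent.Results.MP_b9d480_lc.Emb
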